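import Pool.Agent.W169.AF.Stm
import Pool.Agent.W469.RT.JenA
import Pool.Agent.W583.RT.Det

/-!
Project AF, part DET: the number of zeros in a fixed disc (at any height).
-/

set_option autoImplicit false

namespace Pool.Agent.W237.AF

open Complex Filter Topology Set Pool.Agent.W169.AF

/-- Jensen's inequality with multiplicities -/
theorem jensen {g : ℂ → ℂ} (hg : Differentiable ℂ g) {R ρ B : ℝ} (hR : 0 ≤ R) (hρ : 0 < ρ)
    (hB : ∀ z : ℂ, ‖z‖ = ρ → ‖g z‖ ≤ B) (S : Finset ℂ) (hS : ∀ s ∈ S, ‖s‖ ≤ R) :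
    ‖g 0‖ * ρ ^ (∑ s ∈ S, analyticOrderNatAt g s) ≤
      R ^ (∑ s ∈ S, analyticOrderNatAt g s) * B := by
  obtain ⟨h, hh, hgh⟩ := Pool.Agent.W469.RT.Jen.factor hg S
  set n := ∑ s ∈ S, analyticOrderNatAt g s with hn
  set H : ℂ → ℂ := fun z => (∏ s ∈ S, ((ρ ^ 2 - (starRingEnd ℂ) s * z) / ρ) ^ analyticOrderNatAt g s)
    * h z with hH
  have hHd : Differentiable ℂ H := by
    rw [hH]
    refine Differentiable.mul ?_ hh
    fun_prop
  have h1 : ∀ z : ℂ, ‖z‖ = ρ → ‖H z‖ ≤ B := by
    intro z hz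
    have e1 : ‖H z‖ = ‖g z‖ := by
      rw [hgh z, hH]
      simp only [norm_mul, norm_prod, norm_pow]
      congr 1
      refine Finset.prod_congr rfl fun s _ => ?_
      congr 1
      have e2 : ((ρ : ℂ) ^ 2 - (starRingEnd ℂ) s * z) = z * (starRingEnd ℂ) (z - s) := by
        have e3 : z * (starRingEnd ℂ) z = (ρ : ℂ) ^ 2 := by
          rw [Complex.mul_conj, Complex.normSq_eq_norm_sq, hz]
          push_cast
          rfl
        rw [map_sub, mul_sub, e3]
        ring
      rw [e2, norm_div, norm_mul, RCLike.norm_conj, hz, Complex.norm_real, Real.norm_eq_abs,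
        abs_of_pos hρ]
      field_simp
    rw [e1]
    exact hB z hz
  have h2 : ‖H 0‖ ≤ B := by
    refine Complex.norm_le_of_forall_mem_frontier_norm_le (U := Metric.ball (0 : ℂ) ρ)
      Metric.isBounded_ball hHd.diffContOnCl ?_ ?_
    · intro z hz
      rw [frontier_ball _ hρ.ne'] at hz
      exact h1 z (by simpa using hz)
    · rw [closure_ball _ hρ.ne']
      simpa using hρ.le
  have h3 : ‖H 0‖ = ρ ^ n * ‖h 0‖ := by
    rw [hH]
    simp only [norm_mul, norm_prod, norm_pow]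
    congr 1
    rw [hn, ← Finset.prod_pow_eq_pow_sum]
    refine Finset.prod_congr rfl fun s _ => ?_
    congr 1
    rw [mul_zero, sub_zero, norm_div, norm_pow, Complex.norm_real, Real.norm_eq_abs,
        abs_of_pos hρ]
    field_simp
  have h4 : ‖g 0‖ ≤ R ^ n * ‖h 0‖ := by
    rw [hgh 0, norm_mul, norm_prod]
    refine mul_le_mul_of_nonneg_right ?_ (norm_nonneg _)
    rw [hn, ← Finset.prod_pow_eq_pow_sum]
    refine Finset.prod_le_prod (fun s _ => norm_nonneg _) fun s hs => ?_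
    rw [norm_pow]
    refine pow_le_pow_left₀ (norm_nonneg _) ?_ _
    rw [zero_sub, norm_neg]
    exact hS s hs
  calc ‖g 0‖ * ρ ^ n ≤ R ^ n * ‖h 0‖ * ρ ^ n := mul_le_mul_of_nonneg_right h4 (by positivity)
    _ = R ^ n * ‖H 0‖ := by rw [h3]; ring
    _ ≤ R ^ n * B := mul_le_mul_of_nonneg_left h2 (by positivity)

theorem low {N : ℕ} [NeZero N] (χ : DirichletCharacter ℂ N) {s : ℂ} (hre : s.re = 2) :
    1 / 3 ≤ ‖DirichletCharacter.LFunction χ s‖ := by
  have hs : 1 < s.re := by rw [hre]; norm_num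
  rw [DirichletCharacter.LFunction_eq_LSeries χ hs]
  have hsum : Summable (LSeries.term (fun n => χ n) s) :=
    DirichletCharacter.LSeriesSummable_of_one_lt_re χ hs
  have h1 := hasSum_ite_sub_hasSum hsum.hasSum 1
  have h2 := hasSum_ite_sub_hasSum hasSum_zeta_two 1
  have e1 : LSeries.term (fun n => χ n) s 1 = 1 := by
    rw [LSeries.term_of_ne_zero one_ne_zero]
    simp
  have h3 : ‖∑' n : ℕ, (if n = 1 then 0 else LSeries.term (fun n => χ n) s n)‖ ≤
      Real.pi ^ 2 / 6 - 1 / ((1 : ℕ) : ℝ) ^ 2 := by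
    refine tsum_of_norm_bounded h2 fun n => ?_
    by_cases hn : n = 1
    · rw [if_pos hn, if_pos hn, norm_zero]
    · rw [if_neg hn, if_neg hn]
      rcases Nat.eq_zero_or_pos n with h0 | h0
      · subst h0
        rw [LSeries.term_zero, norm_zero]
        positivity
      · rw [LSeries.term_of_ne_zero h0.ne', norm_div, Complex.norm_natCast_cpow_of_pos h0]
        have e2 : (n : ℝ) ^ s.re = (n : ℝ) ^ 2 := by
          have : s.re = ((2 : ℕ) : ℝ) := by rw [hre]; norm_num
          rw [this, Real.rpow_natCast]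
        rw [e2]
        exact div_le_div_of_nonneg_right (DirichletCharacter.norm_le_one χ _) (by positivity)
  rw [h1.tsum_eq, e1] at h3
  have hpi : Real.pi ^ 2 / 6 - 1 / ((1 : ℕ) : ℝ) ^ 2 ≤ 2 / 3 := by
    have h4 : Real.pi ≤ 3.15 := Real.pi_lt_d2.le
    have h5 : 0 ≤ Real.pi := Real.pi_pos.le
    norm_num
    nlinarith
  have h6 : ‖(1 : ℂ)‖ ≤ ‖LSeries (fun n => χ n) s‖ + ‖LSeries (fun n => χ n) s - 1‖ := by
    calc ‖(1 : ℂ)‖ = ‖LSeries (fun n => χ n) s - (LSeries (fun n => χ n) s - 1)‖ := by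
          congr 1
          ring
      _ ≤ _ := norm_sub_le _ _
  rw [norm_one] at h6
  have h7 : ‖LSeries (fun n => χ n) s - 1‖ ≤ 2 / 3 := h3.trans hpi
  linarith

theorem order_shift (f : ℂ → ℂ) (c s : ℂ) :
    analyticOrderNatAt (fun z => f (c + z)) (s - c) = analyticOrderNatAt f s := by
  unfold analyticOrderNatAt
  have h1 : AnalyticAt ℂ (fun z : ℂ => c + z) (s - c) := by fun_prop
  have h2 : deriv (fun z : ℂ => c + z) (s - c) ≠ 0 := by
    rw [deriv_const_add, deriv_id'']
    exact one_ne_zero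
  have h3 := analyticOrderAt_comp_of_deriv_ne_zero (f := f) h1 h2
  have e : c + (s - c) = s := by ring
  rw [e] at h3
  have e2 : (f ∘ fun z : ℂ => c + z) = fun z => f (c + z) := rfl
  rw [e2] at h3
  rw [h3]

theorem det (hSYM : S_SYM) : S_DET := by
  classical
  have hlog : 0 < Real.log (15 / 14) := Real.log_pos (by norm_num)
  refine ⟨20 / Real.log (15 / 14), by positivity, ?_⟩
  intro q hq χ hχ t0 S hS
  have hdiff : Differentiable ℂ (LF q χ) := (hSYM q hq χ hχ).2.1
  haveI : NeZero q := ⟨by omega⟩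
  have hprim : χ.IsPrimitive := by
    unfold PC at hχ
    exact (Finset.mem_filter.1 hχ).2
  have hχ1 : χ ≠ 1 := H855R2.SF.ne_one_of_prim (by omega) hprim
  have hLF : LF q χ = DirichletCharacter.LFunction χ := by
    funext s
    unfold LF
    rw [dif_neg (by omega)]
  rw [hLF] at hdiff ⊢
  have hq2 : (2 : ℝ) ≤ q := by exact_mod_cast hq
  set c : ℂ := 2 + Complex.I * t0 with hc
  set g : ℂ → ℂ := fun z => DirichletCharacter.LFunction χ (c + z) with hg
  have hgd : Differentiable ℂ g := hdiff.comp (by fun_prop)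
  have hcre : c.re = 2 := by simp [hc]
  have hcn : ‖c‖ ≤ 2 + |t0| := by
    calc ‖c‖ ≤ ‖(2 : ℂ)‖ + ‖Complex.I * (t0 : ℂ)‖ := norm_add_le _ _
      _ = 2 + |t0| := by
        rw [norm_mul, Complex.norm_I, one_mul, Complex.norm_real, Real.norm_eq_abs]
        simp
  have hlow : 1 / 3 ≤ ‖g 0‖ := by
    have : g 0 = DirichletCharacter.LFunction χ c := by rw [hg]; simp
    rw [this]
    exact low χ hcre
  set B : ℝ := 16 * (q + 1) * (4 + |t0|) with hBdef
  have hB : ∀ z : ℂ, ‖z‖ = 15 / 8 → ‖g z‖ ≤ B := by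
    intro z hz
    have hre : 1 / 8 ≤ (c + z).re := by
      have h1 := Complex.abs_re_le_norm z
      rw [hz] at h1
      have h2 := (abs_le.1 h1).1
      rw [Complex.add_re, hcre]
      linarith
    have h1 := H855R2.SF.growth_right (χ := χ) hχ1 (s := c + z) (by linarith)
    have h2 : ‖c + z‖ ≤ 4 + |t0| := by
      calc ‖c + z‖ ≤ ‖c‖ + ‖z‖ := norm_add_le _ _
        _ ≤ 4 + |t0| := by rw [hz]; linarith
    have h3 : ((q : ℝ) + 1) / (c + z).re ≤ 8 * (q + 1) := by
      rw [div_le_iff₀ (by linarith)]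
      nlinarith
    calc ‖g z‖ ≤ ‖c + z‖ * (((q : ℝ) + 1) / (c + z).re) := h1
      _ ≤ (4 + |t0|) * (8 * (q + 1)) := by
          refine mul_le_mul h2 h3 ?_ (by positivity)
          apply div_nonneg (by positivity) (by linarith)
      _ ≤ B := by
          rw [hBdef]
          have : 0 ≤ (q + 1 : ℝ) * (4 + |t0|) := by positivity
          nlinarith
  have key := jensen hgd (R := 7 / 4) (ρ := 15 / 8) (B := B) (by norm_num) (by norm_num) hB
    (S.image fun s => s - c) (by
      intro w hw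
      obtain ⟨s, hs, rfl⟩ := Finset.mem_image.1 hw
      have h1 := hS s hs
      calc ‖s - c‖ = ‖(s - (1 / 2 + Complex.I * t0)) - 3 / 2‖ := by
            congr 1
            rw [hc]
            ring
        _ ≤ ‖s - (1 / 2 + Complex.I * t0)‖ + ‖(3 / 2 : ℂ)‖ := norm_sub_le _ _
        _ ≤ 1 / 4 + 3 / 2 := by
            have : ‖(3 / 2 : ℂ)‖ = 3 / 2 := by simp
            rw [this]
            linarith
        _ = 7 / 4 := by norm_num)
  have hsum : ∑ w ∈ S.image (fun s => s - c), analyticOrderNatAt g w =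
      ∑ s ∈ S, analyticOrderNatAt (DirichletCharacter.LFunction χ) s := by
    rw [Finset.sum_image (fun a _ b _ h => sub_left_injective h)]
    exact Finset.sum_congr rfl fun s _ => order_shift _ c s
  rw [hsum] at key
  set n := ∑ s ∈ S, analyticOrderNatAt (DirichletCharacter.LFunction χ) s with hn
  have hcast : ∑ s ∈ S, (analyticOrderNatAt (DirichletCharacter.LFunction χ) s : ℝ) = (n : ℝ) := by
    rw [hn]
    push_cast
    rfl
  rw [hcast]
  have h1 : (15 / 14 : ℝ) ^ n ≤ 3 * B := by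
    have h2 : 1 / 3 * (15 / 8 : ℝ) ^ n ≤ (7 / 4) ^ n * B :=
      (mul_le_mul_of_nonneg_right hlow (by positivity)).trans key
    have e : (15 / 14 : ℝ) = (15 / 8) / (7 / 4) := by norm_num
    rw [e, div_pow, div_le_iff₀ (by positivity)]
    linarith
  have h4 : 0 ≤ |t0| := abs_nonneg _
  have h5 : 3 * B ≤ (q : ℝ) ^ 8 * (2 + |t0|) ^ 2 := by
    rw [hBdef]
    have e1 : (128 : ℝ) ≤ q ^ 7 := by
      calc (128 : ℝ) = 2 ^ 7 := by norm_num
        _ ≤ q ^ 7 := pow_le_pow_left₀ (by norm_num) hq2 7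
    have e2 : 48 * (q + 1 : ℝ) * (4 + |t0|) ≤ 72 * q * (4 + |t0|) := by
      apply mul_le_mul_of_nonneg_right _ (by positivity)
      linarith
    have e3 : 4 + |t0| ≤ (2 + |t0|) ^ 2 := by nlinarith
    calc 3 * (16 * (q + 1 : ℝ) * (4 + |t0|)) = 48 * (q + 1 : ℝ) * (4 + |t0|) := by ring
      _ ≤ 72 * q * (4 + |t0|) := e2
      _ ≤ 128 * q * (2 + |t0|) ^ 2 := by
          refine mul_le_mul ?_ e3 (by positivity) (by positivity)
          nlinarith
      _ ≤ q ^ 7 * q * (2 + |t0|) ^ 2 := by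
          apply mul_le_mul_of_nonneg_right _ (by positivity)
          exact mul_le_mul_of_nonneg_right e1 (by positivity)
      _ = (q : ℝ) ^ 8 * (2 + |t0|) ^ 2 := by ring
  have h2 := Real.log_le_log (by positivity) (h1.trans h5)
  rw [Real.log_pow, Real.log_mul (by positivity) (by positivity), Real.log_pow, Real.log_pow] at h2
  have l1 : 0 ≤ Real.log q := Real.log_nonneg (by linarith)
  have l2 : 0 ≤ Real.log (2 + |t0|) := Real.log_nonneg (by linarith)
  rw [div_mul_eq_mul_div, le_div_iff₀ hlog]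
  push_cast at h2
  nlinarith

end Pool.Agent.W237.AF
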